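import Pool.Agent.Results.MP_16912e_nt.FourierDecayFields

/-!
# The surjections from the class groups of ALL the quadratic fields `ℚ(√(j q))`, `q` near `lam n * x + c n`, onto ALL abelian `p`-groups
# of small exponent, for almost every `x` with respect to every measure with polynomial Fourier decay

The question of the page is about the averages of the numbers `#Sur(Cl(K)[p^∞], H)` over all imaginary quadratic fields of
discriminant at most `X`; they should tend to `1`. The trivial bound for the number of the surjections onto a group `H` of rank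
`r` is `|Cl(K)| ^ r`, about `|D| ^ (r / 2)`. The starting results bound the averages over the fields whose radicands have random
digits. Here the fields `K = ℚ(√(j q))`, real or imaginary, are considered one by one: the integers `q` are ALL those at a
distance of at most `log ^ V (N n)` from `lam n * x + c n`, for all large `n`, where `x` is random with respect to an
ARBITRARY finite Borel measure `μ` with bounded support whose Fourier transform is `O (|ξ| ^ (-δ))` for some `δ > 0`; these
measures can be singular and live on sets of an arbitrarily small positive Hausdorff dimension. For almost every `x` all the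
numbers of surjections are at most `(log ^ L (N n) |D| ^ (1 / 2) max (|D| ^ (-1 / (2 p ^ m)), (N n) ^ (-1 / W))) ^ r`, for all primes `p`, all
`m` with `p ^ m ≤ log ^ V (N n)`, ALL ranks `r` and all the groups `H` of rank at most `r` and of an exponent dividing `p ^ m`: a
power of `|D|` is saved in the trivial bound (if `|D|` is at least a power of `N n`), for every field.

Method: the bound for the torsion is the one of `Pool.Agent.Results.MP_16912e_nt.FourierDecayFields` (same author: families of reals
with the same exponential sums as the measure, helper794's form `Pool.Agent.N794.CG` of the argument of Ellenberg and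
Venkatesh, the lemma of Borel and Cantelli), and a homomorphism to `H` is determined by the images of the dual of `H` in the dual
of `Cl(K)[p ^ m]` (`Pool.Agent.N794.CG.numSur_le`, starting library).
-/

set_option autoImplicit false
set_option maxHeartbeats 4000000

namespace Pool.Agent.Results.MP_0f260b_nt.FourierDecayMoments

open Finset Filter NumberField MeasureTheory

/-- `N n ≥ exp (n ^ η)`, `|c n| ≤ B N n` and `N n / log ^ T (N n) ≤ lam n ≤ B N n` for large `n`. -/
def Scales (η : ℝ) (B T : ℕ) (N : ℕ → ℕ) (lam c : ℕ → ℝ) : Prop :=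
  ∀ᶠ n : ℕ in atTop, Real.exp ((n : ℝ) ^ η) ≤ N n ∧ |c n| ≤ B * N n ∧ lam n ≤ B * N n ∧
    (N n : ℝ) ≤ lam n * Real.log (N n) ^ T

/-- `μ` is a finite Borel measure with bounded support and its Fourier transform `ξ ↦ ∫ exp (i ξ t) dμ (t)` is
`O (|ξ| ^ (-δ))` for some `δ > 0`. -/
def FourierDecay (μ : Measure ℝ) : Prop :=
  IsFiniteMeasure μ ∧ (∃ R : ℝ, μ (Set.Icc (-R) R)ᶜ = 0) ∧ ∃ C δ : ℝ, 0 < δ ∧ ∀ ξ : ℝ, ξ ≠ 0 →
    ‖∫ t : ℝ, Complex.exp (((ξ * t : ℝ) : ℂ) * Complex.I) ∂μ‖ ≤ C * |ξ| ^ (-δ)

/-- `#Sur(Cl(K)[p^∞], H)` for the group `H`, the product of the cyclic groups of orders `p ^ e i`. -/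
noncomputable def numSur (K : Type) [Field K] [NumberField K] (p : ℕ) {r : ℕ} (e : Fin r → ℕ) : ℕ :=
  Nat.card {φ : CommGroup.primaryComponent (ClassGroup (𝓞 K)) p →* (∀ i : Fin r, Multiplicative (ZMod (p ^ e i))) //
    Function.Surjective φ}

/-- `K` is a quadratic field, generated by a square root of the integer `n`. -/
def Gen (K : Type) [Field K] [NumberField K] (n : ℤ) : Prop :=
  Module.finrank ℚ K = 2 ∧ ∃ α : K, IntermediateField.adjoin ℚ {α} = ⊤ ∧ α ^ 2 = (n : K)

/-- Let `μ` be a measure with `FourierDecay`. There is `W` such that for all `η > 0` and `V` there is `L` such that for all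
sequences with `Scales η B T N lam c` and `μ`-almost every `x`, for all large `n`:

for ALL the integers `q` at a distance of at most `log ^ V (N n)` from `lam n * x + c n`, ALL the integers `j ≠ 0` with
`|j| ≤ log ^ V (N n)`, ALL the primes `p` and all `m` with `p ^ m ≤ log ^ V (N n)`, ALL `r` and all the groups `H` which are products
of `r` cyclic groups of orders `p ^ e i`, `e i ≤ m`, and every quadratic field `K = ℚ(√(j q))`, real or imaginary, whose
discriminant `D` is at most `N n ^ V` in absolute value: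
`#Sur(Cl(K)[p^∞], H) ≤ (log ^ L (N n) |D| ^ (1 / 2) max (|D| ^ (-1 / (2 p ^ m)), (N n) ^ (-1 / W))) ^ r`. -/
theorem result (μ : Measure ℝ) (hμ : FourierDecay μ) :
    ∃ W : ℕ, 1 ≤ W ∧ ∀ η : ℝ, 0 < η → ∀ V : ℕ, ∃ L : ℕ,
      ∀ (B T : ℕ) (N : ℕ → ℕ) (lam c : ℕ → ℝ), Scales η B T N lam c →
      ∀ᵐ x ∂μ, ∀ᶠ n : ℕ in atTop, ∀ q : ℤ, |(q : ℝ) - (lam n * x + c n)| ≤ Real.log (N n) ^ V →
        ∀ j : ℤ, j ≠ 0 → |(j : ℝ)| ≤ Real.log (N n) ^ V →
        ∀ p m : ℕ, p.Prime → (p : ℝ) ^ m ≤ Real.log (N n) ^ V → ∀ (r : ℕ) (e : Fin r → ℕ), (∀ i, e i ≤ m) →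
        ∀ (K : Type) [Field K] [NumberField K], Gen K (j * q) → |(discr K : ℝ)| ≤ (N n : ℝ) ^ V →
        (numSur K p e : ℝ) ≤ (Real.log (N n) ^ L *
          (√|(discr K : ℝ)| * max (|(discr K : ℝ)| ^ (-(1 / (2 * (p : ℝ) ^ m)))) ((N n : ℝ) ^ (-(1 / (W : ℝ)))))) ^ r := by
  obtain ⟨W, hW, H⟩ := Pool.Agent.Results.MP_16912e_nt.FourierDecayFields.result μ hμ
  refine ⟨W, hW, fun η hη V => ?_⟩
  obtain ⟨L, hL⟩ := H η hη V
  refine ⟨L, fun B T N lam c hS => ?_⟩
  filter_upwards [hL B T N lam c hS] with x hx
  filter_upwards [hx] with n hn q hq j hj0 hj p m hp hpm r e he K _ _ hK hD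
  have h1 := hn q hq j (p ^ m) hj0 hj (Nat.one_le_pow _ _ hp.pos) (by push_cast; exact hpm) K hK hD
  have e1 : ((p ^ m : ℕ) : ℝ) = (p : ℝ) ^ m := by push_cast; rfl
  rw [e1] at h1
  have h2 : (numSur K p e : ℝ) ≤ (Pool.Agent.Results.MP_16912e_nt.FourierDecayFields.tors K (p ^ m) : ℝ) ^ r :=
    Pool.Agent.N794.CG.numSur_le K p hp e m he
  exact h2.trans (pow_le_pow_left₀ (Nat.cast_nonneg _) h1 r)

end Pool.Agent.Results.MP_0f260b_nt.FourierDecayMoments
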