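import Pool.Agent.Run7.h710.TR.E
import Pool.Agent.N794.CG.Quad

/-!
# The `H`-moments of the class groups of quadratic fields over families written by a transducer

The integers `v < a ^ k` are arbitrary; the transducer `T` reads the digits of `v` in base `a` and
writes the digits of `T(v)` in base `b` (definitions in `Pool.Agent.Run7.h710.TR.Defs`).

Method: if two words of `L` digits lead from the same state to the same state and different words are written, then the two
parts of the exponential sum over the integers `T(v)` which belong to these words cancel in part at the places where the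
frequency has a digit which is not extremal. The passage from such exponential sums to the torsion of class
groups is from the starting library (`Pool.Agent.R459.Tor`, `Pool.Agent.N794.CG`).

Examples: the bitwise conjunction or disjunction of `v` and `m v` (the carries are the states); the integer whose digit `i`
is `f(x_i, x_{i+1}, …, x_{i+r})`, where `x_i` are the digits of `v` and `f` is not constant (one-sided cellular automata).
-/

set_option autoImplicit false

namespace Pool.Agent.Results.MP_0f260b_nt.TransducerMoments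

open Finset NumberField Filter
open Pool.Agent.Run7.h710.TR

/-- `#Sur(Cl(K)[p^∞], H)` for the group `H`, the product of the cyclic groups of orders `p ^ e i`. -/
noncomputable def numSur (K : Type) [Field K] [NumberField K] (p : ℕ) {r : ℕ} (e : Fin r → ℕ) : ℕ :=
  Nat.card {φ : CommGroup.primaryComponent (ClassGroup (𝓞 K)) p →* (∀ i : Fin r, Multiplicative (ZMod (p ^ e i))) //
    Function.Surjective φ}

open Classical in
/-- Let `b ≥ 2`, `L ≥ 1` and `r ≥ 1` be fixed. There is `δ > 0` such that for `κ ≠ 0` and `U`, `V` there are `B`, `k₀` such that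
the following holds for all `k ≥ k₀`. Let an arbitrary transducer be given which reads digits `< a` and writes digits `< b` (with finitely or infinitely many
states) such that from every state two words of `L` digits lead to the same state, while different words are written; let it
begin in an arbitrary state `s` and read from the left or from the right; `T(v)` is the integer which is written when `v` is read. Let `c` be any
integer, `j ≠ 0` an integer with `|j| ≤ k ^ U`, `l` a prime and `l ^ m ≤ k ^ U`, let `H` be a product of `r` cyclic groups of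
orders `l ^ e i` with `e i ≤ m`, and let `Y ≥ 1`.

Let `K_n = ℚ(√(j n))` be quadratic fields with discriminant of absolute value at most `Y`, for the integers `n` in a set `S`
of integers of absolute value at most `b ^ (V k)`. Then the average over all the `v < a ^ k` of the number of the surjective
homomorphisms from the `l`-part of the class group of `K_n`, `n = c + κ T(v)`, onto `H` (with `0` if `n` is not in `S`) is at
most `(k ^ B Y ^ (1 / 2) max (Y ^ (-1 / (2 l ^ m)), b ^ (- δ k))) ^ r`. -/
theorem result (a b L : ℕ) (hb : 2 ≤ b) (hL : 1 ≤ L) (r : ℕ) (hr : 1 ≤ r) :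
    ∃ δ : ℝ, 0 < δ ∧ ∀ κ : ℤ, κ ≠ 0 → ∀ U V : ℕ, ∃ B k₀ : ℕ, ∀ k : ℕ, k₀ ≤ k →
    ∀ (Q : Type) (τ : Q → ℕ → Q) (o : Q → ℕ → ℕ), Transducer a b L τ o → ∀ (left : Bool) (q : Q),
    ∀ c j : ℤ, j ≠ 0 → |j| ≤ (k : ℤ) ^ U → ∀ (l m : ℕ) (e : Fin r → ℕ), l.Prime → l ^ m ≤ k ^ U → (∀ i, e i ≤ m) →
    ∀ Y : ℝ, 1 ≤ Y →
    ∀ (S : Set ℤ) (K : ℤ → Type) [∀ n, Field (K n)] [∀ n, NumberField (K n)],
    (∀ n ∈ S, |n| ≤ (b : ℤ) ^ (V * k) ∧ Module.finrank ℚ (K n) = 2 ∧ |(discr (K n) : ℝ)| ≤ Y ∧
      ∃ α : K n, IntermediateField.adjoin ℚ {α} = ⊤ ∧ α ^ 2 = ((j * n : ℤ) : K n)) →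
    (∑ v ∈ range (a ^ k), (if c + κ * (image a b τ o left k q v : ℕ) ∈ S then
        (numSur (K (c + κ * (image a b τ o left k q v : ℕ))) l e : ℝ) else 0)) / (a : ℝ) ^ k ≤
      ((k : ℝ) ^ B * (√Y * max (Y ^ (-(1 / (2 * (l : ℝ) ^ m)))) ((b : ℝ) ^ (-(δ * k))))) ^ r := by
  obtain ⟨γ, hγ0, hγ1, hdec⟩ := tr_decays a b L hb hL
  obtain ⟨W, hW, H⟩ := Pool.Agent.N794.CG.sur_gen b hb (L + 1) γ hγ0 hγ1 r hr
  have hWr : (0 : ℝ) < W := by exact_mod_cast hW
  refine ⟨1 / W, by positivity, fun κ hκ U V => ?_⟩
  obtain ⟨B, k₀, J⟩ := H (b.factorial * (b ^ L).factorial) κ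
    (Nat.mul_pos (Nat.factorial_pos _) (Nat.factorial_pos _)) hκ U V
  refine ⟨B, k₀ + 1, fun k hk Q τ o hTr left q c j hj0 hj l m e hl1 hlT he Y hY S K _ _ hS => ?_⟩
  have ha := two_le hTr q
  have h1 := J k (by omega) j hj0 hj l m e hl1 hlT he Y hY S K hS 1 ℕ (range (a ^ k)) (wt a k)
    (Pool.Agent.Run7.h710.TR.val a b τ o left k q c κ) le_rfl (fun i _ => wt_nonneg a k i) (wt_sum a k (by omega)).le
    (Pool.Agent.N794.CG.dom_of_decays (hdec Q τ o hTr left q k κ c))
  have e1 : (b : ℝ) ^ (-((k : ℝ) / W)) = (b : ℝ) ^ (-(1 / (W : ℝ) * k)) := by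
    congr 1
    ring
  rw [one_mul, e1] at h1
  refine le_trans (le_of_eq ?_) h1
  rw [sum_div]
  apply sum_congr rfl
  intro v _
  unfold wt Pool.Agent.Run7.h710.TR.val
  push_cast
  rw [div_eq_mul_one_div, mul_comm]
  rfl

end Pool.Agent.Results.MP_0f260b_nt.TransducerMoments
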