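import Pool.Agent.Run7.h672.CC.H
import Pool.Agent.N794.CG.Quad

/-!
# The moments of the `p`-parts of the class groups of quadratic fields over random integers whose digits are written by independent random words

The definitions `len`, `Words`, `cat`, `noRest`, `cutWord`, `WordLaw` are in `Pool.Agent.Run7.h672.CC.Defs`. From Mathlib: `𝓞 K`,
`ClassGroup`, `NumberField.discr`, `CommGroup.primaryComponent`: the ring of integers, the class group, the discriminant and the
`p`-part of a group.

Method: a strong renewal theorem for the places at which a word ends; between two such places, at a positive proportion of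
the places, two words which do not commute can be exchanged (`w w'` and `w' w` have the same length, the same probability,
and different digits), whatever the language is; hence the characteristic function is exponentially small in the number of the
places at which the frequency is not close to a rational number with a small denominator (`Pool.Agent.Run7.h672.CC`). This gives
the decay from which the starting library derives the bound for the moments (`Pool.Agent.N794.CG`, `Pool.Agent.R459.Tor`).
-/

set_option autoImplicit false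

namespace Pool.Agent.Results.MP_0f260b_nt.WordMoments

open Finset NumberField Filter
open Pool.Agent.Run7.h672.CC

/-- `#Sur(Cl(K)[p^∞], H)` for the group `H`, the product of the cyclic groups of orders `p ^ e i`. -/
noncomputable def numSur (K : Type) [Field K] [NumberField K] (p : ℕ) {r : ℕ} (e : Fin r → ℕ) : ℕ :=
  Nat.card {φ : CommGroup.primaryComponent (ClassGroup (𝓞 K)) p →* (∀ i : Fin r, Multiplicative (ZMod (p ^ e i))) //
    Function.Surjective φ}

open Classical in
/-- Let `q` be the law of a random word in base `b` (`Words b q`: lengths with an exponential moment and without a common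
divisor, and two words which do not commute) and `r ≥ 1`. There is `δ > 0` such that for `κ ≠ 0` and `U`, `V` there are
`B`, `k₀` such that the following holds for all `k ≥ k₀`, for the law `p` of the integer whose `k` digits are written by
independent random words with the law `q` (conditioned on the total length, or cut after `k` digits: `WordLaw b q k p`), all
`c`, all integers `j ≠ 0` with `|j| ≤ k ^ U`, all primes `l` and all `m` with `l ^ m ≤ k ^ U`, all groups `H` which are
products of `r` cyclic groups of orders `l ^ e i` with `e i ≤ m`, and all `Y ≥ 1`.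

Let `K_n = ℚ(√(j n))` be quadratic fields with discriminant of absolute value at most `Y`, for the integers `n` in a set `S`
of integers of absolute value at most `b ^ (V k)`. If `v` is random with the law `p` then the expectation of the
number of the surjective homomorphisms from the `l`-part of the class group of `K_n`, `n = c + κ v`, onto `H` (with `0` if
`n` is not in `S`) is at most `(k ^ B Y ^ (1 / 2) max (Y ^ (-1 / (2 l ^ m)), b ^ (- δ k))) ^ r`. -/
theorem result (b : ℕ) (q : ℕ → ℕ → ℝ) (hq : Words b q) (r : ℕ) (hr : 1 ≤ r) :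
    ∃ δ : ℝ, 0 < δ ∧ ∀ κ : ℤ, κ ≠ 0 → ∀ U V : ℕ, ∃ B k₀ : ℕ, ∀ k : ℕ, k₀ ≤ k → ∀ p : ℕ → ℝ, WordLaw b q k p →
    ∀ c j : ℤ, j ≠ 0 → |j| ≤ (k : ℤ) ^ U → ∀ (l m : ℕ) (e : Fin r → ℕ), l.Prime → l ^ m ≤ k ^ U → (∀ i, e i ≤ m) →
    ∀ Y : ℝ, 1 ≤ Y →
    ∀ (S : Set ℤ) (K : ℤ → Type) [∀ n, Field (K n)] [∀ n, NumberField (K n)],
    (∀ n ∈ S, |n| ≤ (b : ℤ) ^ (V * k) ∧ Module.finrank ℚ (K n) = 2 ∧ |(discr (K n) : ℝ)| ≤ Y ∧
      ∃ α : K n, IntermediateField.adjoin ℚ {α} = ⊤ ∧ α ^ 2 = ((j * n : ℤ) : K n)) →
    ∑ v ∈ range (b ^ k), p v * (if c + κ * v ∈ S then (numSur (K (c + κ * v)) l e : ℝ) else 0) ≤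
      ((k : ℝ) ^ B * (√Y * max (Y ^ (-(1 / (2 * (l : ℝ) ^ m)))) ((b : ℝ) ^ (-(δ * k))))) ^ r := by
  have hb := hq.two
  obtain ⟨F, A, γ, hF, hγ0, hγ1, hdec⟩ := word_decays hq
  obtain ⟨W, hW, H⟩ := Pool.Agent.N794.CG.sur_gen b hb A γ hγ0 hγ1 r hr
  have hWr : (0 : ℝ) < W := by exact_mod_cast hW
  refine ⟨1 / W, by positivity, fun κ hκ U V => ?_⟩
  obtain ⟨B, k₀, J⟩ := H F κ hF hκ U V
  refine ⟨B, k₀, fun k hk p hp c j hj0 hj l m e hl1 hlT he Y hY S K _ _ hS => ?_⟩
  have h1 := J k hk j hj0 hj l m e hl1 hlT he Y hY S K hS 1 ℕ (range (b ^ k)) p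
    (fun v => c + κ * (v : ℕ)) le_rfl (fun i _ => law_nonneg hq hp i) (law_sum hp).le
    (Pool.Agent.N794.CG.dom_of_decays (hdec k p hp κ c))
  refine h1.trans (le_of_eq ?_)
  have e1 : (b : ℝ) ^ (-((k : ℝ) / W)) = (b : ℝ) ^ (-(1 / (W : ℝ) * k)) := by
    congr 1
    ring
  rw [e1, one_mul]

end Pool.Agent.Results.MP_0f260b_nt.WordMoments
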